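import Pool.Agent.RSD.E.E11

set_option autoImplicit false
open Real

namespace Pool.Agent.Results.MP_355ebd_gt.AlmostAllVolumes

/-- `n` is linearly independent and the interior dihedral angles of the spherical tetrahedron
`{x ∈ S³ : ⟪n i, x⟫ ≥ 0 for all i}` are `α 0, ..., α 5`; the six edges (pairs of faces) are numbered
`0 = {0,1}, 1 = {0,2}, 2 = {0,3}, 3 = {1,2}, 4 = {1,3}, 5 = {2,3}`. -/
def HasDihedralAngles (α : Fin 6 → ℝ) (n : Fin 4 → EuclideanSpace ℝ (Fin 4)) : Prop :=
  LinearIndependent ℝ n ∧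
  π - InnerProductGeometry.angle (n 0) (n 1) = α 0 ∧
  π - InnerProductGeometry.angle (n 0) (n 2) = α 1 ∧
  π - InnerProductGeometry.angle (n 0) (n 3) = α 2 ∧
  π - InnerProductGeometry.angle (n 1) (n 2) = α 3 ∧
  π - InnerProductGeometry.angle (n 1) (n 3) = α 4 ∧
  π - InnerProductGeometry.angle (n 2) (n 3) = α 5

/-- The fraction of the unit ball of `ℝ⁴` (equivalently of `S³`) occupied by the cone
`⟪n i, x⟫ ≥ 0` (equivalently by the spherical tetrahedron). -/
noncomputable def volumeFraction (n : Fin 4 → EuclideanSpace ℝ (Fin 4)) : ℝ :=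
  (MeasureTheory.volume
      {x : EuclideanSpace ℝ (Fin 4) | ‖x‖ ≤ 1 ∧ ∀ i : Fin 4, 0 ≤ inner ℝ (n i) x}).toReal
    / (MeasureTheory.volume (Metric.closedBall (0 : EuclideanSpace ℝ (Fin 4)) 1)).toReal

/-- The 6-tuples `a ∈ {0, ..., N-1}⁶` such that there is a spherical tetrahedron with dihedral
angles `π a e / N`. -/
def level (N : ℕ) : Set (Fin 6 → Fin N) :=
  {a | ∃ n : Fin 4 → EuclideanSpace ℝ (Fin 4), HasDihedralAngles (fun e => π * (a e : ℕ) / N) n}

/-- The 6-tuples for which the volume of the tetrahedron is `p/q` times the volume of `S³` with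
`1 ≤ q ≤ B`. -/
def levelSmall (N : ℕ) (B : ℝ) : Set (Fin 6 → Fin N) :=
  {a | ∃ n : Fin 4 → EuclideanSpace ℝ (Fin 4), HasDihedralAngles (fun e => π * (a e : ℕ) / N) n ∧
    ∃ p q : ℕ, 1 ≤ q ∧ (q : ℝ) ≤ B ∧ volumeFraction n = (p : ℝ) / q}

/-- Almost all spherical tetrahedra with dihedral angles in `(π/N)ℤ` have a volume which is either an
irrational multiple of `vol(S³)` or a rational multiple with a denominator that is exponentially
large in `N`: among the (at least `N⁶/10⁶`) 6-tuples of level `N ≥ 15` realised by a spherical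
tetrahedron the proportion of those with volume `(p/q) vol(S³)`, `q ≤ B`, is at most
`10¹¹ (log B / N)^(1/80)`, for every `B ≥ 2`. -/
theorem result (N : ℕ) (hN : 15 ≤ N) (B : ℝ) (hB : 2 ≤ B) :
    (N : ℝ) ^ 6 / 10 ^ 6 ≤ ((level N).ncard : ℝ) ∧
    ((levelSmall N B).ncard : ℝ)
      ≤ 10 ^ 11 * (Real.log B / N) ^ ((1 : ℝ) / 80) * ((level N).ncard : ℝ) :=
  Pool.Agent.RSD.six_param N hN B hB

end Pool.Agent.Results.MP_355ebd_gt.AlmostAllVolumes
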