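import Pool.Agent.RSD.E.E10

set_option autoImplicit false
open Real

namespace Pool.Agent.Results.MP_355ebd_gt.FamilyDichotomy

/-- `n` is linearly independent and the interior dihedral angles of the spherical tetrahedron
`{x ∈ S³ : ⟪n i, x⟫ ≥ 0 for all i}` are `α 0, ..., α 5`; the six edges (pairs of faces) are numbered
`0 = {0,1}, 1 = {0,2}, 2 = {0,3}, 3 = {1,2}, 4 = {1,3}, 5 = {2,3}`. -/
def HasDihedralAngles (α : Fin 6 → ℝ) (n : Fin 4 → EuclideanSpace ℝ (Fin 4)) : Prop :=
  LinearIndependent ℝ n ∧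
  π - InnerProductGeometry.angle (n 0) (n 1) = α 0 ∧
  π - InnerProductGeometry.angle (n 0) (n 2) = α 1 ∧
  π - InnerProductGeometry.angle (n 0) (n 3) = α 2 ∧
  π - InnerProductGeometry.angle (n 1) (n 2) = α 3 ∧
  π - InnerProductGeometry.angle (n 1) (n 3) = α 4 ∧
  π - InnerProductGeometry.angle (n 2) (n 3) = α 5

/-- The fraction of the unit ball of `ℝ⁴` (equivalently of `S³`) occupied by the cone
`⟪n i, x⟫ ≥ 0` (equivalently by the spherical tetrahedron). -/
noncomputable def volumeFraction (n : Fin 4 → EuclideanSpace ℝ (Fin 4)) : ℝ :=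
  (MeasureTheory.volume
      {x : EuclideanSpace ℝ (Fin 4) | ‖x‖ ≤ 1 ∧ ∀ i : Fin 4, 0 ≤ inner ℝ (n i) x}).toReal
    / (MeasureTheory.volume (Metric.closedBall (0 : EuclideanSpace ℝ (Fin 4)) 1)).toReal

/-- One-parameter families: the dihedral angles `α 0, α 1, α 2, α 3, α 4` at the edges `{0,2}`,
`{0,3}`, `{1,2}`, `{1,3}`, `{2,3}` are fixed, the angle at the edge `{0,1}` varies.  The family is
exceptional if either `α 4 = π/2` and the two relations hold, or the four angles `α 0, ..., α 3` are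
right angles. -/
def Exceptional (α : Fin 5 → ℝ) : Prop :=
  (Real.cos (α 4) = 0 ∧
    Real.cos (α 1) * Real.cos (α 2) + Real.cos (α 0) * Real.cos (α 3) = 0 ∧
    Real.cos (α 0) * Real.cos (α 1) + Real.cos (α 2) * Real.cos (α 3) = 0) ∨
  (Real.cos (α 0) = 0 ∧ Real.cos (α 1) = 0 ∧ Real.cos (α 2) = 0 ∧ Real.cos (α 3) = 0)

/-- Dichotomy for one-parameter families of spherical tetrahedra with five fixed dihedral angles
`α 0, ..., α 4` (arbitrary real numbers).  In an exceptional family the volume is given by one of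
three elementary formulas, so it is a rational multiple of `vol(S³)` as soon as all six angles are
rational multiples of `π`.  In every other family the number of `j < N` such that the member with
sixth angle `π j/N` has volume `(p/q) vol(S³)` with `q ≤ B` is at most
`10⁵ N (log B / N)^(1/80) / sin (α 4)`. -/
theorem result (α : Fin 5 → ℝ) :
    (Exceptional α → ∀ (θ : ℝ) (n : Fin 4 → EuclideanSpace ℝ (Fin 4)),
      HasDihedralAngles (Fin.cons θ α : Fin 6 → ℝ) n →
        volumeFraction n = (θ + α 1 + α 3 - π) / (8 * π) ∨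
        volumeFraction n = (θ + α 0 + α 2 - π) / (8 * π) ∨
        volumeFraction n = θ * α 4 / (4 * π ^ 2)) ∧
    (¬ Exceptional α → 0 < α 4 → α 4 < π → ∀ N : ℕ, 1 ≤ N → ∀ B : ℝ, 2 ≤ B →
      (({j : Fin N | ∃ n : Fin 4 → EuclideanSpace ℝ (Fin 4),
          HasDihedralAngles (Fin.cons (π * (j : ℕ) / N) α : Fin 6 → ℝ) n ∧
          ∃ p q : ℕ, 1 ≤ q ∧ (q : ℝ) ≤ B ∧ volumeFraction n = (p : ℝ) / q}.ncard : ℕ) : ℝ)
        ≤ 10 ^ 5 * (N : ℝ) * (Real.log B / N) ^ ((1 : ℝ) / 80) / Real.sin (α 4)) :=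
  ⟨fun hα θ n h => Pool.Agent.RSD.family_exceptional α hα θ n h,
    fun hα h4 h4' N hN B hB => Pool.Agent.RSD.family_dihedral α hα h4 h4' N hN B hB⟩

end Pool.Agent.Results.MP_355ebd_gt.FamilyDichotomy
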